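import Pool.Agent.N95.RF.Sel
import Pool.Agent.N95.RF.Sym
import Pool.Agent.TH466.QT.Spec

/-!
MP_aad98f_ag, Q1: the varieties with non-constant rational maps to the symmetric powers of generic
complete intersections are neither special nor geometrically-special.

Let `K` be an algebraically closed field of characteristic `0`, and `k` a subfield. `GenericCI k K` is a
complete intersection `X` in a projective space, generic over `k` (`Pool/Agent/N111/GI/Maps.lean`): the
intersection of a closed subset `V`, defined over the algebraic closure of `k` in `K`, of dimension at
most `m`, and of hypersurfaces `F a = 0` of degrees `d a`, where the ratios of the coefficients of `F a`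
to one of them are, for all `a` together, algebraically independent over `k`. Let `S` be the sum of the
numbers `d a + 1`.

Let `M` be any variety over `K`, with function field `L`, of dimension `n`, and `φ` any rational map from
`M` to the symmetric power `Sym^r X`, with image of dimension `w ≥ 1`. For instance, `M` can be any
variety with an `r`-valued non-constant map to `X`. The rational map `φ` (`SymMap`, in
`Pool/Agent/N95/RF/Sym.lean`) is a cycle of `r` points of `X` with coordinates in the algebraic closure
of `L` which is stable under the automorphisms over `L`; `φ.values` are the ratios of the coordinates of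
these points, and `w` is the transcendence degree of the field which they generate.

Let `ρ` be the smaller of the numbers `r` and `w`, `d a ≥ ρ` for all `a`, `S + w ≥ (ρ + 1) m + 2 r`, and
`S ≥ 2 m + max (r, 2)`.

**Theorem.** (1) `M` is not special: there is a Bogomolov sheaf (`Special`, in
`Pool/Agent/W602/GT/SpecDefs.lean`).

(2) There is a rational fibration of `M` over a variety `M₁` of dimension `w` (its function field `L₁`
is algebraically closed in `L`) such that the values of `φ` are algebraic over `L₁`, `M₁` is of general
type and all projective models of `M₁` are pseudo-geometrically hyperbolic (`PseudoGeomHyp`, in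
`Pool/Agent/W602/RG/TB.lean`): off a proper closed subset `Δ` of `M₁`, for all pointed curves `(C, c)`
and all points `x` of `M₁` not in `Δ`, there are only finitely many maps `(C, c) → (M₁, x)`.

So `M` is not geometrically-special: let `U` be an open subset of `M` on which `M ⇢ M₁` is defined, with
image in the complement of `Δ`. If `C` is a curve, `c` a point of `C`, `u` a point of `U`, and the `f_i` are
maps from `(C, c)` to `(M, u)`, then their compositions with `M ⇢ M₁` are finitely many maps. So the
union of their graphs is not dense in `C × M₁`, and the union of the graphs of the `f_i` is not dense in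
`C × M`. So the equivalence in Q1 holds for all these varieties `M`, no condition is imposed on `M` and
the map.
-/

set_option autoImplicit false
set_option linter.overlappingInstances false

namespace Pool.Agent.Results.MP_aad98f_ag.SymmetricPowers

open Pool.Agent.N111.GI (GenericCI)
open Pool.Agent.W602.GT (GeneralType Special coords)
open Pool.Agent.W602.RG (PseudoGeomHyp)
open Pool.Agent.N95.RF (SymMap)

/-- **Varieties with non-constant rational maps to symmetric powers are neither special nor
geometrically-special.** -/
theorem result {k K : Type} [Field k] [Field K] [CharZero K] [IsAlgClosed K] [Algebra k K]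
    -- the function field of any variety `M` of dimension `n`
    {L : Type} [Field L] [Algebra K L] [Algebra.EssFiniteType K L] {n : ℕ}
    (hn : Algebra.trdeg K L = n)
    -- the rational map to `Sym^r X`, with image of dimension `w`
    {X : GenericCI k K} {r w : ℕ} (φ : SymMap k K L X r)
    (hw : Algebra.trdeg K (IntermediateField.adjoin K φ.values) = w) (hw1 : 1 ≤ w)
    -- the degrees
    (hd : ∀ a, min r w ≤ X.d a) (hS : (min r w + 1) * X.m + 2 * r ≤ ∑ a, (X.d a + 1) + w)
    (hr : 2 * X.m + r ≤ ∑ a, (X.d a + 1)) (h2 : 2 * X.m + 2 ≤ ∑ a, (X.d a + 1)) :
    ¬ Special K L n (fun _ => False) ∧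
    ∃ L₁ : IntermediateField K L, (∀ z : L, IsAlgebraic L₁ z → z ∈ L₁) ∧
      (∀ t ∈ φ.values, IsAlgebraic L₁ t) ∧ GeneralType K L₁ w ∧
      ∀ (q : ℕ) (v : Fin (q + 1) → L₁), v ≠ 0 → coords K v = ⊤ → PseudoGeomHyp K v := by
  have hgt := φ.gt_base' hd hw hw1 hS
  refine ⟨?_, Pool.Agent.N95.PR.base K L φ.values, fun z hz => Pool.Agent.N95.PR.base_closed hz,
    fun t ht => φ.alg_val (Pool.Agent.N111.FT.subset_aclo _ ht), hgt, fun q v hv hv' => ?_⟩
  · have hess : Algebra.EssFiniteType K (Pool.Agent.N95.PR.base K L φ.values) :=
      Pool.Agent.N133.CC.ess_any _
    exact Pool.Agent.TH466.QT.not_special hn _ hw1 hgt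
  · have h1 := φ.cover_base (ρ := 1) (by rwa [one_mul]) h2 hv hv'
    exact Pool.Agent.Y216.pointed_of_bound (h1.curve le_rfl)

end Pool.Agent.Results.MP_aad98f_ag.SymmetricPowers
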